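import Pool.Agent.PDM.Stmts

/-!
# PDM, row CAP: the cap of the chain
-/

set_option autoImplicit false

namespace Pool.Agent.PDM.H6

open Pool.Agent.PDN

theorem cap (hAPP : AppStmt) (hOPA : OpaStmt) (hOPB : OpbStmt) (hOPD : OpdStmt)
    (hOPE : OpeStmt) : CapStmt := by
  intro α dz mz db mb M h0 s D e hD he
  have h1 := hAPP _ _ _ _ _ _ h0 s
  have h2 := hAPP _ _ _ _ _ _ h1 (D - 8)
  unfold St at h2
  -- the vertex b
  have h3 := hOPA _ _ _ _ _ h2 0 1 2 (by simp) (by simp) [(0, 1, 3), (1, 2, 3), (2, 0, 3)]
    (fun n => if n = 0 then α + s + D - 5 else if n = 1 then D - 3 else if n = 2 then 4 else 3)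
    (by decide) (by
      intro n hn
      interval_cases n <;> simp <;> omega) (by simp)
  -- the vertex E
  have h4 := hOPA _ _ _ _ _ h3 1 2 3 (by simp) (by simp)
    [(0, 1, 3), (2, 0, 3), (1, 2, 4), (2, 3, 4), (3, 1, 4)]
    (fun n => if n = 0 then α + s + D - 5 else if n = 1 then D - 2 else if n = 2 then 5
      else if n = 3 then 4 else 3)
    (by decide) (by
      intro n hn
      interval_cases n <;> simp <;> omega) (by simp)
  -- the free face
  have h5 := hOPD _ _ _ _ _ h4 3 1 4 (by simp) (by simp) (by simp) (by simp)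
    [(0, 1, 3), (2, 0, 3), (1, 2, 4), (2, 3, 4)] (by decide)
  -- the two strips
  have h6 := hOPB _ _ _ _ _ h5 0 3 2 1 (D - 5) (by decide) (by decide) (by decide)
    [(1, 2, 4), (2, 3, 4)]
    (fun n => if n = 0 then α + s + 2 * D - 10 else if n = 1 then D - 1 else if n = 2 then 6
      else if n = 3 then D - 1 else 3)
    (by decide) (by
      intro n hn
      interval_cases n <;> simp <;> omega)
  have h7 := hOPB _ _ _ _ _ h6 2 4 1 3 (e - 3) (by decide) (by decide) (by decide)
    []
    (fun n => if n = 0 then α + s + 2 * D - 10 else if n = 1 then D else if n = 2 then e + 3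
      else if n = 3 then D else e)
    (by simp) (by
      intro n hn
      interval_cases n <;> simp <;> omega)
  have h8 := hOPE _ _ _ _ _ h7 0 id [] [] (fun _ => 0) (by simp) (by simp) (by simp) (by simp)
    (by simp)
  have e1 : Multiset.replicate (s + 2 * D + e - 14) ((4, false) : ℕ × Bool) =
      Multiset.replicate s (4, false) + Multiset.replicate (D - 8) (4, false) +
      Multiset.replicate (D - 5 + 1) (4, false) + Multiset.replicate (e - 3 + 1) (4, false) := by
    rw [← Multiset.replicate_add, ← Multiset.replicate_add, ← Multiset.replicate_add]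
    congr 1
    omega
  rw [e1]
  have e2 : db + 1 + s + 1 = db + s + 2 := by omega
  rw [e2] at h8
  simp only [Nat.not_lt_zero, false_implies, implies_true, Finset.filter_true,
    Finset.range_val, Multiset.range_succ, Multiset.range_zero] at h8
  simp [← Multiset.singleton_add] at h8
  simp only [Multiset.insert_eq_cons, ← Multiset.singleton_add]
  have key : ∀ X Y : Multiset (ℕ × Bool), Rl 0 [] [] (fun _ => 0) X → X = Y →
      Rl 0 [] [] (fun _ => 0) Y := fun X Y h hXY => hXY ▸ h
  refine key _ _ h8 ?_
  simp only [Multiset.replicate_succ, ← Multiset.singleton_add]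
  abel

end Pool.Agent.PDM.H6
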