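import Pool.Agent.PDM.Stmts

/-!
# PDM, row OPE: forget and rename vertices
-/

set_option autoImplicit false

namespace Pool.Agent.PDM.H6

open Pool.Agent.PDN

theorem ope : OpeStmt := by
  classical
  intro k F mk dg M hR k' σ F' mk' dg' hσ hinj hF hm hd
  obtain ⟨V, iV, T, nm, U, hc, hU, hn, hf, hdg, hmk, hM⟩ := hR
  refine ⟨V, iV, T, fun i => nm (σ i), U, hc, hU, ?_, ?_, ?_, ?_, ?_⟩
  · intro i j hi hj h
    exact hinj i j hi hj (hn _ _ (hσ i hi) (hσ j hj) h)
  · intro p hp
    obtain ⟨h1, h2, h3, s, hs, hr⟩ := hF p hp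
    obtain ⟨-, -, -, hT, hnU⟩ := hf s hs
    refine ⟨h1, h2, h3, ?_⟩
    rcases hr with h | h | h
    · have e1 : σ p.1 = s.1 := congrArg Prod.fst h
      have e2 : σ p.2.1 = s.2.1 := congrArg (fun x => x.2.1) h
      have e3 : σ p.2.2 = s.2.2 := congrArg (fun x => x.2.2) h
      simp only [e1, e2, e3]
      exact ⟨hT, hnU⟩
    · have e1 : σ p.1 = s.2.1 := congrArg Prod.fst h
      have e2 : σ p.2.1 = s.2.2 := congrArg (fun x => x.2.1) h
      have e3 : σ p.2.2 = s.1 := congrArg (fun x => x.2.2) h
      simp only [e1, e2, e3]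
      exact ⟨T.cyc hT, fun hh => hnU (hU.rot (hU.rot hh))⟩
    · have e1 : σ p.1 = s.2.2 := congrArg Prod.fst h
      have e2 : σ p.2.1 = s.1 := congrArg (fun x => x.2.1) h
      have e3 : σ p.2.2 = s.2.1 := congrArg (fun x => x.2.2) h
      simp only [e1, e2, e3]
      exact ⟨T.cyc (T.cyc hT), fun hh => hnU (hU.rot hh)⟩
  · intro i hi
    rw [hd i hi]
    exact hdg _ (hσ i hi)
  · intro i hi
    rw [hm i hi]
    exact hmk _ (hσ i hi)
  · rw [← hM]
    have hI : Set.InjOn nm
        (((Finset.range k).filter (fun n => ∀ i, i < k' → σ i ≠ n) : Finset ℕ) : Set ℕ) := by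
      intro a ha b hb h
      have ha' := (Finset.mem_filter.mp (Finset.mem_coe.mp ha)).1
      have hb' := (Finset.mem_filter.mp (Finset.mem_coe.mp hb)).1
      exact hn a b (Finset.mem_range.mp ha') (Finset.mem_range.mp hb') h
    have hD : Disjoint (Finset.univ.filter (fun v => ∀ i, i < k → v ≠ nm i))
        (((Finset.range k).filter (fun n => ∀ i, i < k' → σ i ≠ n)).image nm) := by
      rw [Finset.disjoint_left]
      intro v hv hv'
      obtain ⟨n, hn', rfl⟩ := Finset.mem_image.mp hv'
      have h1 := Finset.mem_range.mp (Finset.mem_filter.mp hn').1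
      exact (Finset.mem_filter.mp hv).2 n h1 rfl
    have key : (Finset.univ.filter (fun v => ∀ i, i < k' → v ≠ nm (σ i))) =
        (Finset.univ.filter (fun v => ∀ i, i < k → v ≠ nm i)).disjUnion
        (((Finset.range k).filter (fun n => ∀ i, i < k' → σ i ≠ n)).image nm) hD := by
      ext v
      simp only [Finset.mem_filter, Finset.mem_univ, true_and, Finset.mem_disjUnion,
        Finset.mem_image, Finset.mem_range]
      constructor
      · intro h
        by_cases hv : ∀ i, i < k → v ≠ nm i
        · exact Or.inl hv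
        · push Not at hv
          obtain ⟨n, hnk, hvn⟩ := hv
          refine Or.inr ⟨n, ⟨hnk, fun i hi hin => ?_⟩, hvn.symm⟩
          exact h i hi (by rw [hin]; exact hvn)
      · rintro (h | ⟨n, ⟨hnk, hni⟩, rfl⟩) i hi heq
        · exact h _ (hσ i hi) heq
        · exact hni i hi (hn _ _ hnk (hσ i hi) heq).symm
    have e : (Finset.univ.filter (fun v => ∀ i, i < k' → v ≠ (fun i => nm (σ i)) i)).val.map
          (fun v => (T.deg v, decide (Mk U v))) =
        (Finset.univ.filter (fun v => ∀ i, i < k → v ≠ nm i)).val.map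
          (fun v => (T.deg v, decide (Mk U v))) +
        ((Finset.range k).filter (fun n => ∀ i, i < k' → σ i ≠ n)).val.map
          (fun n => (dg n, decide (n ∈ mk))) := by
      rw [key, Finset.disjUnion_val, Multiset.map_add, Finset.image_val_of_injOn hI,
        Multiset.map_map]
      congr 1
      refine Multiset.map_congr rfl ?_
      intro n hn'
      have hnk := Finset.mem_range.mp (Finset.mem_filter.mp (Finset.mem_val.mp hn')).1
      simp only [Function.comp_apply, hdg n hnk, hmk n hnk]
    exact e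

end Pool.Agent.PDM.H6
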